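import Pool.Agent.Helper492_GE.BimM

/-!
# The groups `GE₂` of algebras with a degree function

`C` is any class of groups with the closure properties `ClosedE C` which contains the solvable groups and
the groups `F ⋊ ℤ` for all free groups `F`. All this is published for the class of the groups that
satisfy the Farrell-Jones conjecture for A-theory with coefficients and finite wreath products.

Let `R` be a ring with a degree function `d`, with values in a linearly ordered cancellative commutative
monoid and `-∞`, such that `d (a b) = d a + d b` and `d (a + b) ≤ max (d a) (d b)`, and such that the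
elements of degree at most zero form a division ring `K`. Let `GE₂(R)` be the group generated by the
elementary matrices over `R` and by `GL₂(K)`.

(1) If `K` is a field and `R` is a `K`-algebra, then `GE₂(R)` is in `C` if and only if `GL₂(K)` is.

(2) The same holds if `K` has a complement `M` in `R` as a `K`-bimodule. Moreover, for each subgroup `H` of
`GL₂(K)`, the group generated by `H` and the transvections `1 + a m b` (`a` a column and `b` a row over `K`
with `b a = 0`, and `m` in `M`) is in `C` if and only if `H` is in `C`.

Examples are the Weyl algebras, enveloping algebras of Lie algebras, free associative algebras, skew and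
quantum polynomial rings, and semigroup algebras of the positive cones of ordered groups. There need not
be a ring homomorphism from `R` to `K` (simple rings such as the Weyl algebras have none).

Outline of the proof. For a line `ℓ` in `K²` with a vector `v` and a linear form `φ` vanishing on it let
`U_ℓ` be the abelian group of the matrices `1 + v m φ`, `m` in `M`. A product of nontrivial elements of these
groups in which neighbouring lines are different has a leading term `v₁ m₁ c₁ m₂ c₂ ⋯ m_k φ_k` with nonzero
constants `cᵢ`, so it is not in `GL₂(K)`. So the group `N` generated by all `U_ℓ` is their free product and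
meets `GL₂(K)` trivially. `GL₂(K)` permutes the groups `U_ℓ`, so `GE₂(R)` is the semidirect product of `N`
and `GL₂(K)`, and the theorem on extensions by free products (`MP_490288_al.FreeProductExtensions`)
applies. In (1), `M` is a complement of `K` in the vector space `R`.
-/

set_option autoImplicit false

namespace Pool.Agent.Results.MP_63c928_gt.DegreeFunctions

open Pool.Agent.Y110.FJ Pool.Agent.R684.FP Pool.Agent.Helper492_GE Pool.Agent.Helper492_GE.Bim

theorem result (C : ∀ (G : Type) [Group G], Prop) (hC : ClosedE C) (hF : FbC C)
    (hS : ∀ (S : Type) [Group S], Group.IsSolvable S → C S)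
    (Γ R : Type) [AddCommMonoid Γ] [LinearOrder Γ] [IsOrderedCancelAddMonoid Γ] [Ring R] [Nontrivial R]
    (d : R → WithBot Γ) :
    (∀ (k : Type) [Field k] [Algebra k R], DegFn (algebraMap k R) d →
      (C ↥(GE (algebraMap k R)) ↔ C (Matrix (Fin 2) (Fin 2) k)ˣ)) ∧
    ∀ (K : Type) [DivisionRing K] (ι : K →+* R) (M : AddSubgroup R), DegFn ι d → BimCompl ι M →
      (C ↥(GE ι) ↔ C (Matrix (Fin 2) (Fin 2) K)ˣ) ∧
      ∀ H : Subgroup (Matrix (Fin 2) (Fin 2) K)ˣ, C ↥(BE ι M H) ↔ C ↥H :=
  ⟨fun _ _ _ h => iff_alg hC hF hS h,
    fun _ _ _ _ h hM => ⟨iff_GE hC hF hS h hM, fun H => iff_BE hC hF hS h hM H⟩⟩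

end Pool.Agent.Results.MP_63c928_gt.DegreeFunctions
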